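import Pool.Agent.H77.TF.Stm3
import Pool.Agent.H77.TF.Pri
import Pool.Agent.H64.TF.CFS
import Pool.Agent.H27.TF.Cnt

/-!
# Project TC, module CIF: a free arrangement in `K ^ 3` has a complete intersection of uncovered points
-/

set_option autoImplicit false
set_option linter.unusedSectionVars false

open MvPolynomial Module

namespace Pool.Agent.H12.TF

open Pool.Agent.H77.TF

theorem sum3 {M : Type} [AddCommMonoid M] (f : Fin 3 → M) (j : Fin 3) :
    ∑ i, f i = f j + f (j + 1) + f (j + 2) := by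
  rw [Fin.sum_univ_three]
  fin_cases j
  · rfl
  · show f 0 + f 1 + f 2 = f 1 + f 2 + f 0
    abel
  · show f 0 + f 1 + f 2 = f 2 + f 0 + f 1
    abel

theorem det3 {R : Type} [CommRing R] (b : Fin 3 → Fin 3 → R) (j : Fin 3) :
    (Matrix.of b).det = (Matrix.of ![b j, b (j + 1), b (j + 2)]).det := by
  rw [Matrix.det_fin_three, Matrix.det_fin_three]
  fin_cases j
  · rfl
  · show _ = b 1 0 * b 2 1 * b 0 2 - b 1 0 * b 2 2 * b 0 1 - b 1 1 * b 2 0 * b 0 2 +
      b 1 1 * b 2 2 * b 0 0 + b 1 2 * b 2 0 * b 0 1 - b 1 2 * b 2 1 * b 0 0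
    simp only [Matrix.of_apply]
    ring
  · show _ = b 2 0 * b 0 1 * b 1 2 - b 2 0 * b 0 2 * b 1 1 - b 2 1 * b 0 0 * b 1 2 +
      b 2 1 * b 0 2 * b 1 0 + b 2 2 * b 0 0 * b 1 1 - b 2 2 * b 0 1 * b 1 0
    simp only [Matrix.of_apply]
    ring

/-- the determinant of three rows, explicitly -/
theorem det_rows {R : Type} [CommRing R] (u v w : Fin 3 → R) :
    (Matrix.of ![u, v, w]).det = u 0 * v 1 * w 2 - u 0 * v 2 * w 1 - u 1 * v 0 * w 2 +
      u 1 * v 2 * w 0 + u 2 * v 0 * w 1 - u 2 * v 1 * w 0 := by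
  rw [Matrix.det_fin_three]
  rfl

section

variable {K : Type} [Field K] [Fintype K]

theorem D3_comb {d s t α β γ : MvPolynomial (Fin 3) K} {r w v : Fin 3 → MvPolynomial (Fin 3) K}
    (h : frob K 3 1 = d • frob K 3 0 + s • r + t • w)
    (hv : v = α • frob K 3 0 + β • r + γ • w) :
    D3 v = (γ * s - β * t) * (Matrix.of ![frob K 3 0, r, w]).det := by
  unfold D3
  rw [h, hv, det_rows, det_rows]
  simp only [Pi.add_apply, Pi.smul_apply, smul_eq_mul]
  ring

theorem eval_D3 (x : Fin 3 → K) (v : Fin 3 → MvPolynomial (Fin 3) K) : eval x (D3 v) = 0 := by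
  unfold D3
  rw [det_rows]
  simp only [frob, map_sub, map_add, map_mul, map_pow, eval_X, pow_zero, pow_one,
    FiniteField.pow_card]
  ring

theorem eval_lin (x a : Fin 3 → K) : eval x (lin a) = ∑ j, a j * x j := by
  unfold lin
  rw [map_sum]
  simp

theorem minor_hom (s t : Fin 3) :
    (X s * X t ^ Fintype.card K - X t * X s ^ Fintype.card K : MvPolynomial (Fin 3) K).IsHomogeneous
      (1 + Fintype.card K) :=
  ((isHomogeneous_X K s).mul (isHomogeneous_X_pow t _)).sub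
    ((isHomogeneous_X K t).mul (isHomogeneous_X_pow s _))

theorem minor_eval (s t : Fin 3) (x : Fin 3 → K) :
    eval x (X s * X t ^ Fintype.card K - X t * X s ^ Fintype.card K : MvPolynomial (Fin 3) K) = 0 := by
  simp only [map_sub, map_mul, map_pow, eval_X, FiniteField.pow_card]
  ring

theorem core (hDD3 : S_DD3) (hMR3 : S_MR3) (hGC3 : S_GC3) (hPRI : S_PRI) (hDET : S_DET)
    {ν : Type} [Fintype ν] (A : ν → Fin 3 → K) (hA : Simple A) (hP : (Pts A).Nonempty)
    (r w : Fin 3 → MvPolynomial (Fin 3) K) (a b : ℕ) (hr : r ∈ LD A) (hw : w ∈ LD A)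
    (hra : ∀ i, (r i).IsHomogeneous a) (hwb : ∀ i, (w i).IsHomogeneous b)
    (hgen : ∀ v ∈ LD A, ∃ α β γ : MvPolynomial (Fin 3) K, v = α • frob K 3 0 + β • r + γ • w)
    (hδ : (Matrix.of ![frob K 3 0, r, w]).det ≠ 0) :
    ∃ (u v : ℕ) (f g : MvPolynomial (Fin 3) K), f.IsHomogeneous u ∧ g.IsHomogeneous v ∧
      u + v + Fintype.card ν = 2 * Fintype.card K + 1 ∧ van A = Ideal.span {f, g} := by
  classical
  set q := Fintype.card K with hq
  -- the coefficients of the second Frobenius field, homogeneous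
  obtain ⟨d, s, t, hθ, hsh, hth, hs0, ht0⟩ : ∃ d s t : MvPolynomial (Fin 3) K,
      frob K 3 1 = d • frob K 3 0 + s • r + t • w ∧ s.IsHomogeneous (q - a) ∧
      t.IsHomogeneous (q - b) ∧ (q < a → s = 0) ∧ (q < b → t = 0) := by
    obtain ⟨d, s, t, hθ⟩ := hgen (frob K 3 1) (Pool.Agent.H64.TF.frob_mem A 1)
    refine ⟨if 1 ≤ q then homogeneousComponent (q - 1) d else 0,
      if a ≤ q then homogeneousComponent (q - a) s else 0,
      if b ≤ q then homogeneousComponent (q - b) t else 0, ?_, ?_, ?_, ?_, ?_⟩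
    · funext i
      have h1 := congrArg (homogeneousComponent q) (congrFun hθ i)
      simp only [Pi.add_apply, Pi.smul_apply, smul_eq_mul, map_add] at h1 ⊢
      rw [Pool.Agent.H64.TF.comp_mul d (frob K 3 0 i) (e := 1) (by
          unfold frob; rw [pow_zero, pow_one]; exact isHomogeneous_X K i),
        Pool.Agent.H64.TF.comp_mul s (r i) (hra i), Pool.Agent.H64.TF.comp_mul t (w i) (hwb i)] at h1
      rw [← h1]
      have h2 : (frob K 3 1 i).IsHomogeneous q := by
        unfold frob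
        rw [pow_one]
        exact isHomogeneous_X_pow i _
      rw [homogeneousComponent_of_mem h2, if_pos rfl]
    · split_ifs
      · exact homogeneousComponent_isHomogeneous _ _
      · exact isHomogeneous_zero _ _ _
    · split_ifs
      · exact homogeneousComponent_isHomogeneous _ _
      · exact isHomogeneous_zero _ _ _
    · intro h
      rw [if_neg (by omega)]
    · intro h
      rw [if_neg (by omega)]
  -- the product of the forms divides the determinant
  obtain ⟨τ, hτ⟩ : ∏ i, lin (A i) ∣ (Matrix.of ![frob K 3 0, r, w]).det := by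
    refine Pool.Agent.H27.TF.prod_dvd hPRI hA Finset.univ fun i _ => ?_
    refine hDET K 3 (A i) (hA.1 i) ![frob K 3 0, r, w] fun k => ?_
    fin_cases k
    · exact evl_frob_dvd _ _
    · exact hr i
    · exact hw i
  have hQ0 : ∏ i, lin (A i) ≠ 0 := by
    intro h
    rw [h, zero_mul] at hτ
    exact hδ hτ
  have hQh : (∏ i, lin (A i)).IsHomogeneous (Fintype.card ν) := by
    have h1 := IsHomogeneous.prod Finset.univ (fun i => lin (A i)) (fun _ => 1)
      fun i _ => Pool.Agent.H27.TF.lin_hom (A i)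
    simpa using h1
  have hQx : ∀ x ∈ Pts A, eval x (∏ i, lin (A i)) ≠ 0 := by
    intro x hx
    rw [map_prod]
    refine Finset.prod_ne_zero_iff.2 fun i _ => ?_
    rw [eval_lin]
    exact hx i
  -- the polynomials vanishing at the uncovered points
  have key2 : ∀ (f : MvPolynomial (Fin 3) K) (m : ℕ), f.IsHomogeneous m →
      (∀ x ∈ Pts A, eval x f = 0) → ∃ β γ, f = τ * (γ * s - β * t) := by
    intro f m hf hfx
    obtain ⟨v, hv, -, -⟩ := hMR3 K (f * ∏ i, lin (A i)) (m + Fintype.card ν) (hf.mul hQh) (by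
      intro x
      rw [map_mul]
      by_cases hx : x ∈ Pts A
      · rw [hfx x hx, zero_mul]
      · have h1 : ∃ i, ∑ j, A i j * x j = 0 := by
          by_contra hc
          push Not at hc
          exact hx hc
        obtain ⟨i, hi⟩ := h1
        rw [map_prod, Finset.prod_eq_zero (Finset.mem_univ i) (by rw [eval_lin]; exact hi),
          mul_zero])
    have hvL : v ∈ LD A := by
      rw [hDD3 K ν A hA v, hv]
      exact dvd_mul_left _ _
    obtain ⟨α, β, γ, hvc⟩ := hgen v hvL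
    refine ⟨β, γ, ?_⟩
    have h1 := D3_comb hθ hvc
    rw [hv, hτ] at h1
    have h2 : (∏ i, lin (A i)) * f = (∏ i, lin (A i)) * (τ * (γ * s - β * t)) := by
      rw [mul_comm, h1]; ring
    exact mul_left_cancel₀ hQ0 h2
  have hminor : ∀ i j : Fin 3, ∃ β γ,
      (X i * X j ^ Fintype.card K - X j * X i ^ Fintype.card K : MvPolynomial (Fin 3) K) =
        τ * (γ * s - β * t) := fun i j =>
    key2 _ _ (minor_hom i j) fun x _ => minor_eval i j x
  have hτu : IsUnit τ := by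
    refine hGC3 K τ ?_ ?_ ?_
    · obtain ⟨β, γ, h⟩ := hminor 0 1
      exact ⟨_, h⟩
    · obtain ⟨β, γ, h⟩ := hminor 0 2
      exact ⟨_, h⟩
    · obtain ⟨β, γ, h⟩ := hminor 1 2
      exact ⟨_, h⟩
  have hτx : ∀ x, eval x τ ≠ 0 := fun x => (hτu.map (eval x)).ne_zero
  have hδx : ∀ x ∈ Pts A, eval x (Matrix.of ![frob K 3 0, r, w]).det ≠ 0 := by
    intro x hx
    rw [hτ, map_mul]
    exact mul_ne_zero (hQx x hx) (hτx x)
  have hsx : ∀ x ∈ Pts A, eval x s = 0 := by
    intro x hx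
    have h1 := D3_comb (α := 0) (β := 0) (γ := 1) (v := w) hθ (by simp)
    have h2 := congrArg (eval x) h1
    rw [eval_D3, map_mul] at h2
    rcases mul_eq_zero.1 h2.symm with h3 | h3
    · simpa using h3
    · exact absurd h3 (hδx x hx)
  have htx : ∀ x ∈ Pts A, eval x t = 0 := by
    intro x hx
    have h1 := D3_comb (α := 0) (β := 1) (γ := 0) (v := r) hθ (by simp)
    have h2 := congrArg (eval x) h1
    rw [eval_D3, map_mul] at h2
    rcases mul_eq_zero.1 h2.symm with h3 | h3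
    · simpa using h3
    · exact absurd h3 (hδx x hx)
  have hvan : van A = Ideal.span {s, t} := by
    apply le_antisymm
    · unfold van
      rw [Ideal.span_le]
      rintro f ⟨⟨m, hm⟩, hfx⟩
      obtain ⟨β, γ, h⟩ := key2 f m hm hfx
      refine Ideal.mem_span_pair.2 ⟨τ * γ, -(τ * β), ?_⟩
      rw [h]
      ring
    · rw [Ideal.span_le]
      rintro f (hf | hf)
      · rw [hf]
        exact Ideal.subset_span ⟨⟨_, hsh⟩, hsx⟩
      · rw [Set.mem_singleton_iff.1 hf]
        exact Ideal.subset_span ⟨⟨_, hth⟩, htx⟩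
  obtain ⟨x₀, hx₀⟩ := hP
  have haq : a ≤ q := by
    by_contra hc
    have h0 := hs0 (not_le.1 hc)
    have h1 : IsUnit t := by
      refine hGC3 K t ?_ ?_ ?_
      · obtain ⟨β, γ, h⟩ := hminor 0 1
        exact ⟨-(τ * β), by rw [h, h0]; ring⟩
      · obtain ⟨β, γ, h⟩ := hminor 0 2
        exact ⟨-(τ * β), by rw [h, h0]; ring⟩
      · obtain ⟨β, γ, h⟩ := hminor 1 2
        exact ⟨-(τ * β), by rw [h, h0]; ring⟩
    exact (h1.map (eval x₀)).ne_zero (htx x₀ hx₀)
  have hbq : b ≤ q := by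
    by_contra hc
    have h0 := ht0 (not_le.1 hc)
    have h1 : IsUnit s := by
      refine hGC3 K s ?_ ?_ ?_
      · obtain ⟨β, γ, h⟩ := hminor 0 1
        exact ⟨τ * γ, by rw [h, h0]; ring⟩
      · obtain ⟨β, γ, h⟩ := hminor 0 2
        exact ⟨τ * γ, by rw [h, h0]; ring⟩
      · obtain ⟨β, γ, h⟩ := hminor 1 2
        exact ⟨τ * γ, by rw [h, h0]; ring⟩
    exact (h1.map (eval x₀)).ne_zero (hsx x₀ hx₀)
  have hdeg : 1 + a + b = Fintype.card ν := by
    have h1 : (Matrix.of ![frob K 3 0, r, w]).det.IsHomogeneous (∑ j, (![1, a, b] : Fin 3 → ℕ) j) := by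
      refine Pool.Agent.H27.TF.det_hom fun j i => ?_
      fin_cases j
      · show (X i ^ (Fintype.card K ^ 0) : MvPolynomial (Fin 3) K).IsHomogeneous 1
        rw [pow_zero, pow_one]
        exact isHomogeneous_X K i
      · exact hra i
      · exact hwb i
    rw [Fin.sum_univ_three] at h1
    have h2 : (Matrix.of ![frob K 3 0, r, w]).det.IsHomogeneous (Fintype.card ν) := by
      obtain ⟨c, -, hc⟩ := MvPolynomial.isUnit_iff_eq_C_of_isReduced.1 hτu
      rw [hτ, hc]
      exact hQh.mul (isHomogeneous_C _ c)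
    exact h1.inj_right h2 hδ
  exact ⟨q - a, q - b, s, t, hsh, hth, by omega, hvan⟩

end

/-- **Module CIF.** -/
theorem cif (hDD3 : S_DD3) (hMR3 : S_MR3) (hGC3 : S_GC3) (hCFS : S_CFS) (hPRI : S_PRI)
    (hDET : S_DET) : S_CIF := by
  intro K _ _ ν _ _ A e hA hP hE
  classical
  obtain ⟨b, hb⟩ := hE
  obtain ⟨c, h1, h2, h3⟩ := hCFS K 3 ν A e b hb
  obtain ⟨i₀⟩ := (inferInstance : Nonempty ν)
  have hpr := (hPRI K 3 (A i₀) (hA.1 i₀)).1
  choose g hg using fun j => (b j).2 i₀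
  have hsum : ∑ j, c 0 j * g j = 1 := by
    have h4 := congrArg (evl (A i₀)) (h1 0)
    rw [evl_frob, pow_zero, pow_one, evl_vsum] at h4
    have h5 : lin (A i₀) * ∑ j, c 0 j * g j = lin (A i₀) * 1 := by
      rw [mul_one]
      conv_rhs => rw [h4]
      rw [Finset.mul_sum]
      refine Finset.sum_congr rfl fun j _ => ?_
      rw [evl_vsmul, hg j]
      ring
    exact mul_left_cancel₀ hpr.ne_zero h5
  obtain ⟨j₀, hj1, hj2⟩ : ∃ j, e j = 1 ∧ c 0 j ≠ 0 := by
    by_contra hc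
    push Not at hc
    have h4 : ∑ j, c 0 j * g j = 0 := by
      refine Finset.sum_eq_zero fun j _ => ?_
      rcases lt_trichotomy (e j) 1 with h | h | h
      · have h5 : (evl (A i₀) (b j : Fin 3 → MvPolynomial (Fin 3) K)).IsHomogeneous 0 := by
          unfold evl
          refine IsHomogeneous.sum _ _ _ fun i _ => ?_
          have h6 := (isHomogeneous_C (Fin 3) (A i₀ i)).mul (hb j i)
          rwa [show 0 + e j = 0 by omega] at h6
        have h6 : evl (A i₀) (b j : Fin 3 → MvPolynomial (Fin 3) K) =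
            C (coeff 0 (evl (A i₀) (b j : Fin 3 → MvPolynomial (Fin 3) K))) :=
          totalDegree_eq_zero_iff_eq_C.1 (Nat.le_zero.1 h5.totalDegree_le)
        by_cases h7 : coeff 0 (evl (A i₀) (b j : Fin 3 → MvPolynomial (Fin 3) K)) = 0
        · rw [h7, C_0, hg j] at h6
          rcases mul_eq_zero.1 h6 with h8 | h8
          · exact absurd h8 hpr.ne_zero
          · rw [h8, mul_zero]
        · exfalso
          refine hpr.not_isUnit (isUnit_of_dvd_unit ⟨g j, hg j⟩ ?_)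
          rw [h6]
          exact (isUnit_iff_ne_zero.2 h7).map C
      · rw [hc j h, zero_mul]
      · rw [h2 0 j (by rw [pow_zero]; exact h), zero_mul]
    rw [h4] at hsum
    exact zero_ne_one hsum
  obtain ⟨κ, hκ⟩ := h3 0 j₀ (by rw [pow_zero]; exact hj1.symm)
  have hκ0 : κ ≠ 0 := by
    rintro rfl
    rw [C_0] at hκ
    exact hj2 hκ
  have hCC : (C κ⁻¹ : MvPolynomial (Fin 3) K) * C κ = 1 := by
    rw [← C_mul, inv_mul_cancel₀ hκ0, C_1]
  have hθ : frob K 3 0 = (C κ : MvPolynomial (Fin 3) K) • (b j₀ : Fin 3 → MvPolynomial (Fin 3) K) +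
      c 0 (j₀ + 1) • (b (j₀ + 1) : Fin 3 → MvPolynomial (Fin 3) K) +
      c 0 (j₀ + 2) • (b (j₀ + 2) : Fin 3 → MvPolynomial (Fin 3) K) := by
    rw [h1 0, sum3 _ j₀, hκ]
  refine core hDD3 hMR3 hGC3 hPRI hDET A hA hP (b (j₀ + 1)) (b (j₀ + 2)) (e (j₀ + 1)) (e (j₀ + 2))
    (b (j₀ + 1)).2 (b (j₀ + 2)).2 (hb _) (hb _) ?_ ?_
  · intro v hv
    have h4 : v = b.repr ⟨v, hv⟩ j₀ • (b j₀ : Fin 3 → MvPolynomial (Fin 3) K) +
        b.repr ⟨v, hv⟩ (j₀ + 1) • (b (j₀ + 1) : Fin 3 → MvPolynomial (Fin 3) K) +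
        b.repr ⟨v, hv⟩ (j₀ + 2) • (b (j₀ + 2) : Fin 3 → MvPolynomial (Fin 3) K) := by
      have h5 := congrArg Subtype.val (b.sum_repr ⟨v, hv⟩)
      rw [Submodule.coe_sum, sum3 _ j₀] at h5
      exact h5.symm
    refine ⟨b.repr ⟨v, hv⟩ j₀ * C κ⁻¹,
      b.repr ⟨v, hv⟩ (j₀ + 1) - b.repr ⟨v, hv⟩ j₀ * C κ⁻¹ * c 0 (j₀ + 1),
      b.repr ⟨v, hv⟩ (j₀ + 2) - b.repr ⟨v, hv⟩ j₀ * C κ⁻¹ * c 0 (j₀ + 2), ?_⟩
    funext i
    have h5 := congrFun h4 i
    have h6 := congrFun hθ i
    simp only [Pi.add_apply, Pi.smul_apply, smul_eq_mul] at h5 h6 ⊢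
    rw [h6]
    generalize hx0 : b.repr ⟨v, hv⟩ j₀ = x0 at h5 ⊢
    generalize hx1 : b.repr ⟨v, hv⟩ (j₀ + 1) = x1 at h5 ⊢
    generalize hx2 : b.repr ⟨v, hv⟩ (j₀ + 2) = x2 at h5 ⊢
    rw [h5]
    linear_combination (-x0 * (b j₀ : Fin 3 → MvPolynomial (Fin 3) K) i) * hCC
  · have hQ : ∏ k, lin (A k) ≠ 0 :=
      Finset.prod_ne_zero_iff.2 fun i _ => (hPRI K 3 (A i) (hA.1 i)).1.ne_zero
    have h4 := Pool.Agent.H27.TF.det_basis A hQ b
    rw [det3 _ j₀] at h4
    have h5 : (Matrix.of ![frob K 3 0, (b (j₀ + 1) : Fin 3 → MvPolynomial (Fin 3) K),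
        (b (j₀ + 2) : Fin 3 → MvPolynomial (Fin 3) K)]).det =
        C κ * (Matrix.of ![(b j₀ : Fin 3 → MvPolynomial (Fin 3) K),
          (b (j₀ + 1) : Fin 3 → MvPolynomial (Fin 3) K),
          (b (j₀ + 2) : Fin 3 → MvPolynomial (Fin 3) K)]).det := by
      rw [hθ, det_rows, det_rows]
      simp only [Pi.add_apply, Pi.smul_apply, smul_eq_mul]
      ring
    rw [h5]
    exact mul_ne_zero (by rw [Ne, C_eq_zero]; exact hκ0) h4

end Pool.Agent.H12.TF
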